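import Pool.Agent.H47.MED.Stmts

/-!
# MED: triples of medium height (assembly)
-/

set_option autoImplicit false

namespace Pool.MED

open Finset Pool.Agent.H98.ABCR Pool.SHA

theorem mdd_thm (hCHT : S_CHT) (hCNR : S_CNR) (hCNE : S_CNE) (hCNF : S_CNF) : S_MDD := by
  classical
  intro ε κ0 hε hκ0
  have hκ : 0 < κ0 := by linarith
  obtain ⟨c0, X0, E, hc0, hX0, hch⟩ := hCHT ε κ0 (1 / 100) hε hκ0 (by norm_num)
  obtain ⟨CR, hCR, hR⟩ := hCNR E κ0 (c0 / 2) hκ (by linarith)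
  obtain ⟨CE, hCE, hE⟩ := hCNE E κ0 (c0 / 2) hκ (by linarith)
  obtain ⟨CF, hCF, hF⟩ := hCNF κ0 (1 / 100) hκ (by norm_num) (by norm_num)
  obtain ⟨c, hc⟩ : ∃ c, c = min (c0 / 2) (2 / 15) := ⟨_, rfl⟩
  have hcp : 0 < c := by rw [hc]; exact lt_min (by linarith) (by norm_num)
  have hc1 : c ≤ c0 / 2 := by rw [hc]; exact min_le_left _ _
  have hc2 : c ≤ 2 / 15 := by rw [hc]; exact min_le_right _ _
  obtain ⟨N, hN⟩ : ∃ N : ℕ, N = ⌊X0 ^ κ0⌋₊ + 1 := ⟨_, rfl⟩
  have hX00 : 0 < X0 := by linarith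
  refine ⟨c, CR + CE + CF + (N : ℝ) ^ 2, hcp, by nlinarith [sq_nonneg (N : ℝ)], ?_⟩
  intro X F hX hall
  have hXp : 0 < X := by linarith
  have hXc : (1 : ℝ) ≤ X ^ (2 / 3 - c) := Real.one_le_rpow hX (by linarith)
  have hXc0 : 0 ≤ X ^ (2 / 3 - c) := by linarith
  rcases le_or_gt X0 X with hbig | hsmall
  · -- large `X`
    set Z : ℝ := X ^ (2 / 3 - c0) with hZ
    have hZ0 : 0 ≤ Z := by rw [hZ]; positivity
    set FR := F.filter (fun v => OptR E Z v) with hFR
    set FE := F.filter (fun v => OptE E Z v) with hFE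
    set FF := F.filter (fun v => OptF X (1 / 100) v) with hFF
    have hsub : F ⊆ FR ∪ (FE ∪ FF) := by
      intro v hv
      obtain ⟨h1, h2, h3, h4⟩ := hall v hv
      simp only [mem_union, hFR, hFE, hFF, mem_filter]
      rcases hch X v hbig h1 h2 h3 h4 with h | h | h
      · exact Or.inl ⟨hv, h⟩
      · exact Or.inr (Or.inl ⟨hv, h⟩)
      · exact Or.inr (Or.inr ⟨hv, h⟩)
    have hcard : (F.card : ℝ) ≤ FR.card + (FE.card + FF.card) := by
      have h1 := Finset.card_le_card hsub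
      have h2 := Finset.card_union_le FR (FE ∪ FF)
      have h3 := Finset.card_union_le FE FF
      have h4 : F.card ≤ FR.card + (FE.card + FF.card) := by omega
      exact_mod_cast h4
    have b1 : (FR.card : ℝ) ≤ CR * X ^ (c0 / 2) * Z := by
      refine hR X Z FR hX hZ0 ?_
      intro v hv
      rw [hFR, mem_filter] at hv
      obtain ⟨h1, h2, h3, h4⟩ := hall v hv.1
      exact ⟨h1, h2, h4, hv.2⟩
    have b2 : (FE.card : ℝ) ≤ CE * X ^ (c0 / 2) * Z := by
      refine hE X Z FE hX hZ0 ?_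
      intro v hv
      rw [hFE, mem_filter] at hv
      obtain ⟨h1, h2, h3, h4⟩ := hall v hv.1
      exact ⟨h1, h2, h4, hv.2⟩
    have b3 : (FF.card : ℝ) ≤ CF * X ^ (1 / 3 + 20 * (1 / 100) : ℝ) := by
      refine hF X FF hX ?_
      intro v hv
      rw [hFF, mem_filter] at hv
      obtain ⟨h1, h2, h3, h4⟩ := hall v hv.1
      exact ⟨h1, h2, h4, hv.2⟩
    have e1 : X ^ (c0 / 2) * Z ≤ X ^ (2 / 3 - c) := by
      rw [hZ, ← Real.rpow_add hXp]
      exact Real.rpow_le_rpow_of_exponent_le hX (by linarith)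
    have e2 : X ^ (1 / 3 + 20 * (1 / 100) : ℝ) ≤ X ^ (2 / 3 - c) :=
      Real.rpow_le_rpow_of_exponent_le hX (by linarith)
    calc (F.card : ℝ) ≤ FR.card + (FE.card + FF.card) := hcard
      _ ≤ CR * (X ^ (c0 / 2) * Z) + (CE * (X ^ (c0 / 2) * Z) +
          CF * X ^ (1 / 3 + 20 * (1 / 100) : ℝ)) := by
          rw [← mul_assoc, ← mul_assoc]
          linarith
      _ ≤ CR * X ^ (2 / 3 - c) + (CE * X ^ (2 / 3 - c) + CF * X ^ (2 / 3 - c)) := by
          gcongr
      _ ≤ (CR + CE + CF + (N : ℝ) ^ 2) * X ^ (2 / 3 - c) := by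
          nlinarith [mul_nonneg (sq_nonneg (N : ℝ)) hXc0]
  · -- small `X`
    have hsub : F ⊆ Finset.range N ×ˢ Finset.range N := by
      intro v hv
      obtain ⟨h1, h2, h3, h4⟩ := hall v hv
      have hs : ((v.1 + v.2 : ℕ) : ℝ) ≤ X0 ^ κ0 := by
        have hpos : (0 : ℝ) < ((v.1 + v.2 : ℕ) : ℝ) := by
          have := h1.1
          exact_mod_cast (by omega : 0 < v.1 + v.2)
        unfold hh at h4
        rw [← Real.log_le_log_iff hpos (by positivity), Real.log_rpow hX00]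
        have : Real.log X ≤ Real.log X0 := Real.log_le_log hXp hsmall.le
        nlinarith
      have hf : v.1 + v.2 ≤ ⌊X0 ^ κ0⌋₊ := Nat.le_floor hs
      rw [mem_product, mem_range, mem_range]
      omega
    have h1 := Finset.card_le_card hsub
    rw [card_product, card_range] at h1
    have h2 : (F.card : ℝ) ≤ (N : ℝ) ^ 2 := by
      rw [pow_two]
      exact_mod_cast h1
    calc (F.card : ℝ) ≤ (N : ℝ) ^ 2 * 1 := by linarith
      _ ≤ (CR + CE + CF + (N : ℝ) ^ 2) * X ^ (2 / 3 - c) := by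
          refine mul_le_mul (by linarith) hXc zero_le_one (by positivity)

end Pool.MED
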